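import Mathlib

set_option autoImplicit false

namespace Pool.Agent.Results.MP_55f31a_lc.LipImpliesLpp

/-- Modal formulas, built from literals and constants using `∧, ∨, ◇, □`.
`lit n true` is the variable `pₙ`, and `lit n false` is the negated variable `¬pₙ`. -/
inductive Formula : Type
  | lit : ℕ → Bool → Formula
  | bot : Formula
  | top : Formula
  | and : Formula → Formula → Formula
  | or : Formula → Formula → Formula
  | dia : Formula → Formula
  | box : Formula → Formula

namespace Formula

/-- The negation of a formula, defined by the De Morgan and modal duality laws. -/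
def neg : Formula → Formula
  | lit n b => lit n (!b)
  | bot => top
  | top => bot
  | and φ ψ => or φ.neg ψ.neg
  | or φ ψ => and φ.neg ψ.neg
  | dia φ => box φ.neg
  | box φ => dia φ.neg

/-- The variable `pₙ` as a formula. -/
def var (n : ℕ) : Formula := lit n true

/-- `φ → ψ` abbreviates `¬φ ∨ ψ`. -/
def imp (φ ψ : Formula) : Formula := or φ.neg ψ

/-- `φ ↔ ψ` abbreviates `(φ → ψ) ∧ (ψ → φ)`. -/
def iff (φ ψ : Formula) : Formula := and (imp φ ψ) (imp ψ φ)

/-- The set of literals occurring in a formula: `(n, true)` stands for the literal `pₙ`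
and `(n, false)` for the literal `¬pₙ`. -/
def lits : Formula → Set (ℕ × Bool)
  | lit n b => {(n, b)}
  | bot => ∅
  | top => ∅
  | and φ ψ => φ.lits ∪ ψ.lits
  | or φ ψ => φ.lits ∪ ψ.lits
  | dia φ => φ.lits
  | box φ => φ.lits

/-- The set of (indices of) variables occurring in a formula, positively or negatively. -/
def vars (φ : Formula) : Set ℕ := {n | ∃ b, (n, b) ∈ φ.lits}

/-- Uniform substitution: every variable `pₙ` is replaced by `σ n`
(so the literal `¬pₙ` becomes `¬(σ n)`). -/
def subst (σ : ℕ → Formula) : Formula → Formula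
  | lit n true => σ n
  | lit n false => (σ n).neg
  | bot => bot
  | top => top
  | and φ ψ => and (φ.subst σ) (ψ.subst σ)
  | or φ ψ => or (φ.subst σ) (ψ.subst σ)
  | dia φ => dia (φ.subst σ)
  | box φ => box (φ.subst σ)

/-- The truth value of a formula under the Boolean valuation `v`, for formulas that contain no
modality (and `none` for formulas that contain a modality). -/
def eval (v : ℕ → Bool) : Formula → Option Bool
  | lit n b => some (v n == b)
  | bot => some false
  | top => some true
  | and φ ψ => do let a ← φ.eval v; let b ← ψ.eval v; pure (a && b)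
  | or φ ψ => do let a ← φ.eval v; let b ← ψ.eval v; pure (a || b)
  | dia _ => none
  | box _ => none

/-- A classical tautology: a formula without modalities which is true under every
Boolean valuation of the variables. -/
def IsTautology (φ : Formula) : Prop := ∀ v : ℕ → Bool, φ.eval v = some true

/-- A formula is positive if no negated variable occurs in it. -/
def Positive (φ : Formula) : Prop := ∀ n, (n, false) ∉ φ.lits

end Formula

open Formula

/-- A monotone modal logic: a set of formulas that contains all classical tautologies, the duality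
`□p ↔ ¬◇¬p` and the axiom `◇p → ◇(p ∨ q)`, and is closed under modus ponens, uniform substitution,
and the rule from `φ ↔ ψ` infer `◇φ ↔ ◇ψ`. -/
structure IsMonotoneLogic (Λ : Set Formula) : Prop where
  taut : ∀ φ, φ.IsTautology → φ ∈ Λ
  dual : iff (box (var 0)) (neg (dia (neg (var 0)))) ∈ Λ
  mono : imp (dia (var 0)) (dia (or (var 0) (var 1))) ∈ Λ
  mp : ∀ φ ψ, φ ∈ Λ → imp φ ψ ∈ Λ → ψ ∈ Λ
  subst : ∀ φ σ, φ ∈ Λ → φ.subst σ ∈ Λ
  congr : ∀ φ ψ, iff φ ψ ∈ Λ → iff (dia φ) (dia ψ) ∈ Λ

/-- `φ(p₁,…,pₖ)`, whose variables are exactly `p₁,…,pₖ`, is monotone in `Λ`: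
`Λ ⊢ φ(p₁,…,pₖ) → φ(p₁ ∨ q₁,…,pₖ ∨ qₖ)` for pairwise distinct fresh variables `qᵢ`. -/
def IsMonotoneIn (Λ : Set Formula) (φ : Formula) : Prop :=
  ∃ q : ℕ → ℕ, Set.InjOn q φ.vars ∧ (∀ n ∈ φ.vars, q n ∉ φ.vars) ∧
    imp φ (φ.subst (fun n => or (var n) (var (q n)))) ∈ Λ

/-- The Lyndon positivity property: every formula monotone in `Λ` is `Λ`-equivalent to a
positive formula. -/
def LPP (Λ : Set Formula) : Prop :=
  ∀ φ, IsMonotoneIn Λ φ → ∃ ψ, ψ.Positive ∧ iff φ ψ ∈ Λ

/-- The Lyndon interpolation property. -/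
def LIP (Λ : Set Formula) : Prop :=
  ∀ φ ψ, imp φ ψ ∈ Λ →
    ∃ θ : Formula, θ.lits ⊆ φ.lits ∩ ψ.lits ∧ imp φ θ ∈ Λ ∧ imp θ ψ ∈ Λ

namespace Formula

theorem neg_neg (φ : Formula) : φ.neg.neg = φ := by
  induction φ with
  | lit n b => simp [neg]
  | bot => rfl
  | top => rfl
  | and φ ψ ih1 ih2 => simp [neg, ih1, ih2]
  | or φ ψ ih1 ih2 => simp [neg, ih1, ih2]
  | dia φ ih => simp [neg, ih]
  | box φ ih => simp [neg, ih]

/-- Replace every literal `(n, b)` by the formula `s n b`. -/
def lsubst (s : ℕ → Bool → Formula) : Formula → Formula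
  | lit n b => s n b
  | bot => bot
  | top => top
  | and φ ψ => and (φ.lsubst s) (ψ.lsubst s)
  | or φ ψ => or (φ.lsubst s) (ψ.lsubst s)
  | dia φ => dia (φ.lsubst s)
  | box φ => box (φ.lsubst s)

theorem subst_eq_lsubst (σ : ℕ → Formula) (φ : Formula) :
    φ.subst σ = φ.lsubst (fun n b => if b then σ n else (σ n).neg) := by
  induction φ with
  | lit n b => cases b <;> simp [subst, lsubst]
  | bot => rfl
  | top => rfl
  | and φ ψ ih1 ih2 => simp [subst, lsubst, ih1, ih2]
  | or φ ψ ih1 ih2 => simp [subst, lsubst, ih1, ih2]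
  | dia φ ih => simp [subst, lsubst, ih]
  | box φ ih => simp [subst, lsubst, ih]

theorem lsubst_congr {s t : ℕ → Bool → Formula} {φ : Formula}
    (h : ∀ n b, (n, b) ∈ φ.lits → s n b = t n b) : φ.lsubst s = φ.lsubst t := by
  induction φ with
  | lit n b => exact h n b rfl
  | bot => rfl
  | top => rfl
  | and φ ψ ih1 ih2 =>
    simp only [lsubst]
    rw [ih1 (fun n b hh => h n b (Or.inl hh)), ih2 (fun n b hh => h n b (Or.inr hh))]
  | or φ ψ ih1 ih2 =>
    simp only [lsubst]
    rw [ih1 (fun n b hh => h n b (Or.inl hh)), ih2 (fun n b hh => h n b (Or.inr hh))]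
  | dia φ ih => simp only [lsubst]; rw [ih h]
  | box φ ih => simp only [lsubst]; rw [ih h]

theorem lsubst_lit (φ : Formula) : φ.lsubst (fun n b => lit n b) = φ := by
  induction φ with
  | lit n b => rfl
  | bot => rfl
  | top => rfl
  | and φ ψ ih1 ih2 => simp [lsubst, ih1, ih2]
  | or φ ψ ih1 ih2 => simp [lsubst, ih1, ih2]
  | dia φ ih => simp [lsubst, ih]
  | box φ ih => simp [lsubst, ih]

theorem subst_lsubst (σ : ℕ → Formula) (s : ℕ → Bool → Formula) (φ : Formula) :
    (φ.lsubst s).subst σ = φ.lsubst (fun n b => (s n b).subst σ) := by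
  induction φ with
  | lit n b => rfl
  | bot => rfl
  | top => rfl
  | and φ ψ ih1 ih2 => simp [subst, lsubst, ih1, ih2]
  | or φ ψ ih1 ih2 => simp [subst, lsubst, ih1, ih2]
  | dia φ ih => simp [subst, lsubst, ih]
  | box φ ih => simp [subst, lsubst, ih]

theorem lits_lsubst (s : ℕ → Bool → Formula) (φ : Formula) :
    ∀ x ∈ (φ.lsubst s).lits, ∃ n b, (n, b) ∈ φ.lits ∧ x ∈ (s n b).lits := by
  induction φ with
  | lit n b => intro x hx; exact ⟨n, b, rfl, hx⟩
  | bot => intro x hx; exact hx.elim
  | top => intro x hx; exact hx.elim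
  | and φ ψ ih1 ih2 =>
    intro x hx
    rcases hx with hx | hx
    · obtain ⟨n, b, h1, h2⟩ := ih1 x hx
      exact ⟨n, b, Or.inl h1, h2⟩
    · obtain ⟨n, b, h1, h2⟩ := ih2 x hx
      exact ⟨n, b, Or.inr h1, h2⟩
  | or φ ψ ih1 ih2 =>
    intro x hx
    rcases hx with hx | hx
    · obtain ⟨n, b, h1, h2⟩ := ih1 x hx
      exact ⟨n, b, Or.inl h1, h2⟩
    · obtain ⟨n, b, h1, h2⟩ := ih2 x hx
      exact ⟨n, b, Or.inr h1, h2⟩
  | dia φ ih => exact ih
  | box φ ih => exact ih

end Formula

section Logic

variable {Λ : Set Formula} (hΛ : IsMonotoneLogic Λ)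

/-- The substitution sending `p₀, p₁, p₂, p₃` to `a, b, c, d`. -/
def sub4 (a b c d : Formula) : ℕ → Formula
  | 0 => a
  | 1 => b
  | 2 => c
  | _ => d

include hΛ

theorem imp_trans {a b c : Formula} (h1 : imp a b ∈ Λ) (h2 : imp b c ∈ Λ) : imp a c ∈ Λ := by
  have ht : (imp (imp (var 0) (var 1)) (imp (imp (var 1) (var 2))
      (imp (var 0) (var 2)))).IsTautology := by
    intro v
    simp only [imp, var, neg, eval, Option.pure_def, Option.bind_eq_bind, Option.bind_some]
    cases v 0 <;> cases v 1 <;> cases v 2 <;> rfl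
  have h := hΛ.subst _ (sub4 a b c c) (hΛ.taut _ ht)
  simp only [imp, var, neg, Formula.subst, sub4, Bool.not_true, Bool.not_false] at h
  have h1' := hΛ.mp (imp a b) (imp (imp b c) (imp a c)) h1 (by
    simpa [imp, neg, neg_neg] using h)
  exact hΛ.mp _ _ h2 h1'

theorem imp_refl (a : Formula) : imp a a ∈ Λ := by
  have ht : (imp (var 0) (var 0)).IsTautology := by
    intro v
    simp only [imp, var, neg, eval, Option.pure_def, Option.bind_eq_bind, Option.bind_some]
    cases v 0 <;> rfl
  have h := hΛ.subst _ (sub4 a a a a) (hΛ.taut _ ht)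
  simpa [imp, var, neg, Formula.subst, sub4] using h

theorem or_self_imp (a : Formula) : imp (or a a) a ∈ Λ := by
  have ht : (imp (or (var 0) (var 0)) (var 0)).IsTautology := by
    intro v
    simp only [imp, var, neg, eval, Option.pure_def, Option.bind_eq_bind, Option.bind_some]
    cases v 0 <;> rfl
  have h := hΛ.subst _ (sub4 a a a a) (hΛ.taut _ ht)
  simpa [imp, var, neg, Formula.subst, sub4] using h

theorem and_imp_right (a b : Formula) : imp (and a b) b ∈ Λ := by
  have ht : (imp (and (var 0) (var 1)) (var 1)).IsTautology := by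
    intro v
    simp only [imp, var, neg, eval, Option.pure_def, Option.bind_eq_bind, Option.bind_some]
    cases v 0 <;> cases v 1 <;> rfl
  have h := hΛ.subst _ (sub4 a b b b) (hΛ.taut _ ht)
  simpa [imp, var, neg, Formula.subst, sub4] using h

theorem and_imp_left (a b : Formula) : imp (and a b) a ∈ Λ := by
  have ht : (imp (and (var 0) (var 1)) (var 0)).IsTautology := by
    intro v
    simp only [imp, var, neg, eval, Option.pure_def, Option.bind_eq_bind, Option.bind_some]
    cases v 0 <;> cases v 1 <;> rfl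
  have h := hΛ.subst _ (sub4 a b b b) (hΛ.taut _ ht)
  simpa [imp, var, neg, Formula.subst, sub4] using h

theorem and_intro {a b : Formula} (h1 : a ∈ Λ) (h2 : b ∈ Λ) : and a b ∈ Λ := by
  have ht : (imp (var 0) (imp (var 1) (and (var 0) (var 1)))).IsTautology := by
    intro v
    simp only [imp, var, neg, eval, Option.pure_def, Option.bind_eq_bind, Option.bind_some]
    cases v 0 <;> cases v 1 <;> rfl
  have h := hΛ.subst _ (sub4 a b b b) (hΛ.taut _ ht)
  have h' := hΛ.mp a (imp b (and a b)) h1 (by
    simpa [imp, var, neg, Formula.subst, sub4] using h)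
  exact hΛ.mp _ _ h2 h'

theorem iff_intro {a b : Formula} (h1 : imp a b ∈ Λ) (h2 : imp b a ∈ Λ) : iff a b ∈ Λ :=
  and_intro hΛ h1 h2

theorem iff_mp {a b : Formula} (h : iff a b ∈ Λ) : imp a b ∈ Λ :=
  hΛ.mp _ _ h (and_imp_left hΛ _ _)

theorem or_comm_mem {a b : Formula} (h : or a b ∈ Λ) : or b a ∈ Λ := by
  have ht : (imp (or (var 0) (var 1)) (or (var 1) (var 0))).IsTautology := by
    intro v
    simp only [imp, var, neg, eval, Option.pure_def, Option.bind_eq_bind, Option.bind_some]
    cases v 0 <;> cases v 1 <;> rfl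
  have h' := hΛ.subst _ (sub4 a b b b) (hΛ.taut _ ht)
  exact hΛ.mp (or a b) (or b a) h (by simpa [imp, var, neg, Formula.subst, sub4] using h')

theorem and_mono {a b c d : Formula} (h1 : imp a b ∈ Λ) (h2 : imp c d ∈ Λ) :
    imp (and a c) (and b d) ∈ Λ := by
  have ht : (imp (imp (var 0) (var 1)) (imp (imp (var 2) (var 3))
      (imp (and (var 0) (var 2)) (and (var 1) (var 3))))).IsTautology := by
    intro v
    simp only [imp, var, neg, eval, Option.pure_def, Option.bind_eq_bind, Option.bind_some]
    cases v 0 <;> cases v 1 <;> cases v 2 <;> cases v 3 <;> rfl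
  have h := hΛ.subst _ (sub4 a b c d) (hΛ.taut _ ht)
  have h' := hΛ.mp (imp a b) (imp (imp c d) (imp (and a c) (and b d))) h1 (by
    simpa [imp, var, neg, Formula.subst, sub4, neg_neg] using h)
  exact hΛ.mp _ _ h2 h'

theorem or_mono {a b c d : Formula} (h1 : imp a b ∈ Λ) (h2 : imp c d ∈ Λ) :
    imp (or a c) (or b d) ∈ Λ := by
  have ht : (imp (imp (var 0) (var 1)) (imp (imp (var 2) (var 3))
      (imp (or (var 0) (var 2)) (or (var 1) (var 3))))).IsTautology := by
    intro v
    simp only [imp, var, neg, eval, Option.pure_def, Option.bind_eq_bind, Option.bind_some]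
    cases v 0 <;> cases v 1 <;> cases v 2 <;> cases v 3 <;> rfl
  have h := hΛ.subst _ (sub4 a b c d) (hΛ.taut _ ht)
  have h' := hΛ.mp (imp a b) (imp (imp c d) (imp (or a c) (or b d))) h1 (by
    simpa [imp, var, neg, Formula.subst, sub4, neg_neg] using h)
  exact hΛ.mp _ _ h2 h'

theorem dia_mono {a b : Formula} (h : imp a b ∈ Λ) : imp (dia a) (dia b) ∈ Λ := by
  have h1 : imp (or a b) b ∈ Λ :=
    imp_trans hΛ (or_mono hΛ h (imp_refl hΛ b)) (or_self_imp hΛ b)
  have h2 : imp b (or a b) ∈ Λ := by
    have ht : (imp (var 1) (or (var 0) (var 1))).IsTautology := by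
      intro v
      simp only [imp, var, neg, eval, Option.pure_def, Option.bind_eq_bind, Option.bind_some]
      cases v 0 <;> cases v 1 <;> rfl
    have h := hΛ.subst _ (sub4 a b b b) (hΛ.taut _ ht)
    simpa [imp, var, neg, Formula.subst, sub4] using h
  have h3 := iff_mp hΛ (hΛ.congr _ _ (iff_intro hΛ h1 h2))
  have h4 : imp (dia a) (dia (or a b)) ∈ Λ := by
    have h := hΛ.subst _ (sub4 a b b b) hΛ.mono
    simpa [imp, var, neg, Formula.subst, sub4] using h
  exact imp_trans hΛ h4 h3

theorem box_mono {a b : Formula} (h : imp a b ∈ Λ) : imp (box a) (box b) ∈ Λ := by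
  have h1 : imp b.neg a.neg ∈ Λ := by
    have := or_comm_mem hΛ h
    simpa [imp, neg_neg] using this
  have h2 := dia_mono hΛ h1
  have h3 := or_comm_mem hΛ h2
  simpa [imp, neg, neg_neg] using h3

theorem lsubst_mono {s t : ℕ → Bool → Formula} (φ : Formula)
    (h : ∀ n b, (n, b) ∈ φ.lits → imp (s n b) (t n b) ∈ Λ) :
    imp (φ.lsubst s) (φ.lsubst t) ∈ Λ := by
  induction φ with
  | lit n b => exact h n b rfl
  | bot => exact imp_refl hΛ _
  | top => exact imp_refl hΛ _
  | and φ ψ ih1 ih2 =>
    exact and_mono hΛ (ih1 (fun n b hh => h n b (Or.inl hh)))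
      (ih2 (fun n b hh => h n b (Or.inr hh)))
  | or φ ψ ih1 ih2 =>
    exact or_mono hΛ (ih1 (fun n b hh => h n b (Or.inl hh)))
      (ih2 (fun n b hh => h n b (Or.inr hh)))
  | dia φ ih => exact dia_mono hΛ (ih h)
  | box φ ih => exact box_mono hΛ (ih h)

end Logic

/-- Every monotone modal logic, normal or not, that has the Lyndon interpolation property also has
the Lyndon positivity property.

Idea of the proof: if `φ(p) → φ(p ∨ q)` is in `Λ`, then so is `φ(p) → φ'`, where `φ'` comes from
`φ` by replacing every positive literal `p` with `p ∨ q` and every negative literal `¬p` with `¬q`.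
The common literals of `φ` and `φ'` are positive, so the interpolant `θ` is positive, and putting
`q := p` in `θ → φ'` gives `θ → φ`. -/
theorem result (Λ : Set Formula) (hΛ : IsMonotoneLogic Λ) (hI : LIP Λ) : LPP Λ := by
  classical
  rintro φ ⟨q, hinj, hfresh, hφ⟩
  -- replace positive occurrences of `pₙ` by `pₙ ∨ qₙ` and negative ones by `¬qₙ`
  set s : ℕ → Bool → Formula :=
    fun n b => if b then or (var n) (var (q n)) else lit (q n) false with hs
  have h1 : imp (φ.subst (fun n => or (var n) (var (q n)))) (φ.lsubst s) ∈ Λ := by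
    rw [subst_eq_lsubst]
    apply lsubst_mono hΛ
    intro n b _
    cases b
    · simp only [hs, var, neg, Bool.not_true]
      exact and_imp_right hΛ _ _
    · simp only [hs]
      exact imp_refl hΛ _
  obtain ⟨θ, hθ, h2, h3⟩ := hI _ _ (imp_trans hΛ hφ h1)
  have hpos : θ.Positive := by
    intro n hn
    obtain ⟨ha, hb⟩ := hθ hn
    obtain ⟨m, b, hm, hx⟩ := lits_lsubst s φ _ hb
    cases b
    · simp only [hs, lits, Bool.false_eq_true, if_false, Set.mem_singleton_iff,
        Prod.mk.injEq, and_true] at hx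
      exact hfresh m ⟨_, hm⟩ (hx ▸ ⟨_, ha⟩)
    · simp [hs, lits, var] at hx
  refine ⟨θ, hpos, iff_intro hΛ h2 ?_⟩
  -- substitute `qₙ := pₙ`
  set ρ : ℕ → Formula := fun m =>
    if h : ∃ n ∈ φ.vars, q n = m then var h.choose else var m with hρ
  have hρq : ∀ n ∈ φ.vars, ρ (q n) = var n := by
    intro n hn
    have hex : ∃ n' ∈ φ.vars, q n' = q n := ⟨n, hn, rfl⟩
    simp only [hρ, dif_pos hex]
    have := hex.choose_spec
    rw [hinj this.1 hn this.2]
  have hρv : ∀ n ∈ φ.vars, ρ n = var n := by
    intro n hn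
    have hex : ¬ ∃ n' ∈ φ.vars, q n' = n := by
      rintro ⟨n', hn', rfl⟩
      exact hfresh n' hn' hn
    simp only [hρ, dif_neg hex]
  have h4 := hΛ.subst _ ρ h3
  have h5 : (imp θ (φ.lsubst s)).subst ρ = imp θ ((φ.lsubst s).subst ρ) := by
    have hθs : θ.neg.subst ρ = θ.neg := by
      have key : ∀ χ : Formula, (∀ x ∈ χ.lits, x.1 ∈ φ.vars) → χ.neg.subst ρ = χ.neg := by
        intro χ hχ
        induction χ with
        | lit n b =>
          have hn : n ∈ φ.vars := hχ (n, b) rfl
          cases b
          · simp only [neg, Bool.not_false, Formula.subst]; rw [hρv n hn]; rfl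
          · simp only [neg, Bool.not_true, Formula.subst]; rw [hρv n hn]; rfl
        | bot => rfl
        | top => rfl
        | and a b iha ihb =>
          simp only [neg, Formula.subst]
          rw [iha (fun x hx => hχ x (Or.inl hx)), ihb (fun x hx => hχ x (Or.inr hx))]
        | or a b iha ihb =>
          simp only [neg, Formula.subst]
          rw [iha (fun x hx => hχ x (Or.inl hx)), ihb (fun x hx => hχ x (Or.inr hx))]
        | dia a iha => simp only [neg, Formula.subst]; rw [iha hχ]
        | box a iha => simp only [neg, Formula.subst]; rw [iha hχ]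
      exact key θ (fun x hx => ⟨x.2, (hθ hx).1⟩)
    simp only [imp, Formula.subst, hθs]
  rw [h5, subst_lsubst] at h4
  refine imp_trans hΛ h4 ?_
  have h6 : imp (φ.lsubst (fun n b => (s n b).subst ρ)) (φ.lsubst (fun n b => lit n b)) ∈ Λ := by
    apply lsubst_mono hΛ
    intro n b hn
    have hnv : n ∈ φ.vars := ⟨b, hn⟩
    cases b
    · have : (s n false).subst ρ = lit n false := by
        simp only [hs, Bool.false_eq_true, if_false, Formula.subst]
        rw [hρq n hnv]; rfl
      rw [this]
      exact imp_refl hΛ _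
    · have : (s n true).subst ρ = or (lit n true) (lit n true) := by
        simp only [hs, if_true, Formula.subst, var]
        rw [hρq n hnv, hρv n hnv]; rfl
      rw [this]
      exact or_self_imp hΛ _
  rwa [lsubst_lit] at h6

end Pool.Agent.Results.MP_55f31a_lc.LipImpliesLpp
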